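import Mathlib

/-!
# Iterated partial derivatives, homogeneous ideals of points, orders of vanishing
-/

namespace Pool.Agent.V1184.SymPow

open MvPolynomial

variable {K : Type*} [Field K] {σ : Type*} [Fintype σ]

/-- The homogeneous ideal of the point with homogeneous coordinates `p`: it is generated by the
homogeneous polynomials vanishing at `p`. -/
noncomputable def pointIdeal (p : σ → K) : Ideal (MvPolynomial σ K) :=
  Ideal.span {F | (∃ d : ℕ, F.IsHomogeneous d) ∧ eval p F = 0}

/-- Iterated partial derivative along a list of indices. -/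
noncomputable def iterD (L : List σ) (F : MvPolynomial σ K) : MvPolynomial σ K :=
  L.foldr (fun i G => pderiv i G) F

omit [Fintype σ] in
@[simp] lemma iterD_nil (F : MvPolynomial σ K) : iterD ([] : List σ) F = F := rfl

omit [Fintype σ] in
@[simp] lemma iterD_cons (i : σ) (L : List σ) (F : MvPolynomial σ K) :
    iterD (i :: L) F = pderiv i (iterD L F) := rfl

omit [Fintype σ] in
lemma iterD_append (L L' : List σ) (F : MvPolynomial σ K) :
    iterD (L ++ L') F = iterD L (iterD L' F) := by
  simp [iterD]

omit [Fintype σ] in
lemma pderiv_comm' (i j : σ) (F : MvPolynomial σ K) :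
    pderiv i (pderiv j F) = pderiv j (pderiv i F) := by
  classical
  ext m
  rw [coeff_pderiv, coeff_pderiv, coeff_pderiv, coeff_pderiv]
  by_cases hij : i = j
  · subst hij; rfl
  · have h1 : (m + (Finsupp.single i 1 : σ →₀ ℕ) : σ →₀ ℕ) j = m j := by
      simp [hij]
    have h2 : (m + (Finsupp.single j 1 : σ →₀ ℕ) : σ →₀ ℕ) i = m i := by
      have : ¬ j = i := fun h => hij h.symm
      simp [this]
    rw [h1, h2, add_right_comm]
    ring

omit [Fintype σ] in
lemma iterD_perm {L L' : List σ} (h : L.Perm L') (F : MvPolynomial σ K) :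
    iterD L F = iterD L' F := by
  have : LeftCommutative (fun (i : σ) (G : MvPolynomial σ K) => pderiv i G) :=
    ⟨fun i j G => pderiv_comm' i j G⟩
  exact h.foldr_eq F

omit [Fintype σ] in
lemma iterD_isHomogeneous (L : List σ) {F : MvPolynomial σ K} {d : ℕ} (h : F.IsHomogeneous d) :
    (iterD L F).IsHomogeneous (d - L.length) := by
  induction L with
  | nil => simpa using h
  | cons i L ih =>
    rw [iterD_cons, List.length_cons, ← Nat.sub_sub]
    exact ih.pderiv

omit [Fintype σ] in
lemma iterD_eq_zero (L : List σ) {F : MvPolynomial σ K} {d : ℕ} (h : F.IsHomogeneous d)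
    (hL : d < L.length) : iterD L F = 0 := by
  induction L with
  | nil => simp at hL
  | cons i L ih =>
    rw [iterD_cons]
    rcases Nat.lt_or_ge d L.length with h1 | h1
    · rw [ih h1]; simp
    · rw [List.length_cons] at hL
      have h2 : L.length = d := by omega
      have h3 := iterD_isHomogeneous L h
      rw [h2, Nat.sub_self] at h3
      rw [← totalDegree_zero_iff_isHomogeneous, totalDegree_eq_zero_iff_eq_C] at h3
      rw [h3, pderiv_C]

/-- chain rule along a polynomial curve. -/
lemma chain (c : σ → Polynomial K) (F : MvPolynomial σ K) :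
    Polynomial.derivative (aeval c F) =
      ∑ j, Polynomial.derivative (c j) * aeval c (pderiv j F) := by
  classical
  induction F using MvPolynomial.induction_on with
  | C a => simp
  | add p q hp hq => simp [hp, hq, mul_add, Finset.sum_add_distrib]
  | mul_X p i hp =>
    have h1 : ∀ j, aeval c (pderiv j (p * X i)) =
        aeval c (pderiv j p) * c i + aeval c p * (if j = i then 1 else 0) := by
      intro j
      rw [pderiv_mul, pderiv_X]
      by_cases h : j = i
      · subst h; simp
      · have h' : ¬ i = j := fun h2 => h h2.symm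
        simp [Pi.single_apply, h]
    simp_rw [h1]
    simp only [map_mul, aeval_X, Polynomial.derivative_mul, hp, mul_add, Finset.sum_add_distrib]
    congr 1
    · rw [Finset.sum_mul]
      exact Finset.sum_congr rfl fun j _ => by ring
    · simp; ring

/-- Euler's identity along a polynomial curve. -/
lemma euler (c : σ → Polynomial K) {F : MvPolynomial σ K} {d : ℕ} (h : F.IsHomogeneous d) :
    ∑ j, c j * aeval c (pderiv j F) = d • aeval c F := by
  have := congrArg (aeval c) h.sum_X_mul_pderiv
  rw [map_sum, map_nsmul] at this
  rw [← this]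
  exact Finset.sum_congr rfl fun j _ => by simp

/-- All partial derivatives of `F` of order `< a` vanish at `p`. -/
def VanishOrd (F : MvPolynomial σ K) (p : σ → K) (a : ℕ) : Prop :=
  ∀ L : List σ, L.length < a → eval p (iterD L F) = 0

omit [Fintype σ] in
lemma VanishOrd.iterD {F : MvPolynomial σ K} {p : σ → K} {a : ℕ} (h : VanishOrd F p a)
    (L : List σ) : VanishOrd (iterD L F) p (a - L.length) := by
  intro L' hL'
  rw [← iterD_append]
  apply h
  rw [List.length_append]
  omega

omit [Fintype σ] in
/-- derivatives drop the order of an ideal power by one. -/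
lemma pderiv_mem_pow (P : Ideal (MvPolynomial σ K)) (i : σ) (k : ℕ) :
    ∀ F ∈ P ^ (k + 1), pderiv i F ∈ P ^ k := by
  induction k with
  | zero => intro F _; simp
  | succ k ih =>
    intro F hF
    rw [pow_succ] at hF
    refine Submodule.mul_induction_on hF ?_ ?_
    · intro a ha b hb
      rw [pderiv_mul]
      refine Ideal.add_mem _ ?_ (Ideal.mul_mem_right _ _ ha)
      rw [pow_succ]
      exact Ideal.mul_mem_mul (ih a ha) hb
    · intro x y hx hy
      rw [map_add]
      exact Ideal.add_mem _ hx hy

omit [Fintype σ] in
lemma iterD_mem_pow (P : Ideal (MvPolynomial σ K)) (L : List σ) {k : ℕ}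
    {F : MvPolynomial σ K} (hF : F ∈ P ^ k) : iterD L F ∈ P ^ (k - L.length) := by
  induction L with
  | nil => simpa using hF
  | cons i L ih =>
    rw [iterD_cons, List.length_cons]
    rcases Nat.lt_or_ge L.length k with h | h
    · obtain ⟨m, hm⟩ : ∃ m, k - L.length = m + 1 := ⟨k - L.length - 1, by omega⟩
      rw [hm] at ih
      have : k - (L.length + 1) = m := by omega
      rw [this]
      exact pderiv_mem_pow P i m _ ih
    · have : k - (L.length + 1) = 0 := by omega
      rw [this]; simp

omit [Fintype σ] in
/-- Elements of the ideal of the point `c(t)` restrict to the curve with a zero at `t`. -/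
lemma aeval_mem_of_mem_pointIdeal (c : σ → Polynomial K) (t : K) (p : σ → K)
    (hp : ∀ i, (c i).eval t = p i) {k : ℕ} {F : MvPolynomial σ K}
    (hF : F ∈ pointIdeal p ^ k) : (Polynomial.X - Polynomial.C t) ^ k ∣ aeval c F := by
  have h1 : Ideal.map (aeval c : MvPolynomial σ K →ₐ[K] Polynomial K) (pointIdeal p) ≤
      Ideal.span {Polynomial.X - Polynomial.C t} := by
    rw [pointIdeal, Ideal.map_span, Ideal.span_le]
    rintro _ ⟨G, ⟨_, hG⟩, rfl⟩
    rw [SetLike.mem_coe, Ideal.mem_span_singleton, Polynomial.dvd_iff_isRoot, Polynomial.IsRoot.def]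
    have : Polynomial.eval t (aeval c G) = eval p G := by
      have h2 : (Polynomial.evalRingHom t).comp ((aeval c : MvPolynomial σ K →ₐ[K] _) :
          MvPolynomial σ K →+* Polynomial K) = (eval p : MvPolynomial σ K →+* K) := by
        ext i
        · simp
        · simp [hp i]
      have := congrArg (fun f : MvPolynomial σ K →+* K => f G) h2
      simpa using this
    rw [← hG, ← this]
  have h2 : aeval c F ∈ (Ideal.map (aeval c : MvPolynomial σ K →ₐ[K] Polynomial K)
      (pointIdeal p)) ^ k := by
    rw [← Ideal.map_pow]
    exact Ideal.mem_map_of_mem _ hF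
  have h3 := Ideal.pow_right_mono h1 k h2
  rwa [Ideal.span_singleton_pow, Ideal.mem_span_singleton] at h3

omit [Fintype σ] in
lemma eval_aeval_curve (c : σ → Polynomial K) (t : K) (G : MvPolynomial σ K) :
    Polynomial.eval t (aeval c G) = eval (fun i => (c i).eval t) G := by
  have h2 : (Polynomial.evalRingHom t).comp ((aeval c : MvPolynomial σ K →ₐ[K] _) :
      MvPolynomial σ K →+* Polynomial K) =
      (eval (fun i => (c i).eval t) : MvPolynomial σ K →+* K) := by
    ext i
    · simp
    · simp
  have := congrArg (fun f : MvPolynomial σ K →+* K => f G) h2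
  simpa using this

end Pool.Agent.V1184.SymPow
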