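import Mathlib
import Pool.Agent.V1184.SymPow.Basic

/-!
# Lower bound for the initial degree
-/

namespace Pool.Agent.V1184.SymPow

open MvPolynomial

variable {K : Type*} [Field K] {σ : Type*} [Fintype σ]

/-- A polynomial divisible by powers of distinct linear factors has large degree. -/
lemma deg_bound {ι : Type*} [Fintype ι] (t : ι → K) (ht : Function.Injective t) (m : ι → ℕ)
    (f : Polynomial K) (hf : f ≠ 0)
    (h : ∀ i, (Polynomial.X - Polynomial.C (t i)) ^ (m i) ∣ f) : ∑ i, m i ≤ f.natDegree := by
  classical
  have h1 : (∏ i, (Polynomial.X - Polynomial.C (t i)) ^ (m i)) ∣ f := by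
    apply Finset.prod_dvd_of_coprime
    · intro i _ j _ hij
      exact (Polynomial.pairwise_coprime_X_sub_C ht hij).pow
    · intro i _; exact h i
  have h2 := Polynomial.natDegree_le_of_dvd h1 hf
  rw [Polynomial.natDegree_prod_of_monic _ _
    (fun i _ => (Polynomial.monic_X_sub_C (t i)).pow _)] at h2
  simpa using h2

/-- Vanishing of derivatives of order `< a` gives a zero of order `a` along any curve. -/
lemma dvd_curve [CharZero K] (c : σ → Polynomial K) (t : K) (a : ℕ) :
    ∀ F : MvPolynomial σ K, VanishOrd F (fun j => (c j).eval t) a →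
      (Polynomial.X - Polynomial.C t) ^ a ∣ aeval c F := by
  induction a with
  | zero => intro F _; simp
  | succ a ih =>
    intro F hF
    by_cases h0 : aeval c F = 0
    · rw [h0]; exact dvd_zero _
    have hroot : (aeval c F : Polynomial K).IsRoot t := by
      rw [Polynomial.IsRoot.def, eval_aeval_curve]
      exact hF [] (by simp)
    have hder : (Polynomial.X - Polynomial.C t) ^ a ∣ Polynomial.derivative (aeval c F) := by
      rw [chain]
      refine Finset.dvd_sum fun j _ => Dvd.dvd.mul_left (ih _ ?_) _
      intro L hL
      have := hF (L ++ [j]) (by simpa using hL)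
      rwa [iterD_append] at this
    by_cases h1 : Polynomial.derivative (aeval c F) = 0
    · exfalso
      have h2 := Polynomial.derivative_eq_zero.1 h1
      rw [Polynomial.natDegree_eq_zero] at h2
      obtain ⟨x, hx⟩ := h2
      rw [← hx] at hroot
      simp at hroot
      apply h0
      rw [← hx, hroot, map_zero]
    · rw [← Polynomial.le_rootMultiplicity_iff h0]
      rw [← Polynomial.le_rootMultiplicity_iff h1,
        Polynomial.derivative_rootMultiplicity_of_root hroot] at hder
      have : 0 < (aeval c F : Polynomial K).rootMultiplicity t :=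
        (Polynomial.rootMultiplicity_pos h0).2 hroot
      omega

omit [Fintype σ] in
lemma eval_smul_of_isHomogeneous {F : MvPolynomial σ K} {d : ℕ} (h : F.IsHomogeneous d)
    (s : K) (p : σ → K) : eval (s • p) F = s ^ d * eval p F := by
  rw [eval_eq, eval_eq, Finset.mul_sum]
  refine Finset.sum_congr rfl fun m hm => ?_
  have h2 : ∑ i ∈ m.support, m i = d := by
    have := h (mem_support_iff.1 hm)
    rw [Finsupp.weight_apply, Finsupp.sum] at this
    simpa using this
  simp only [Pi.smul_apply, smul_eq_mul, mul_pow, Finset.prod_mul_distrib]
  rw [Finset.prod_pow_eq_pow_sum]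
  rw [h2]; ring

omit [Fintype σ] in
lemma VanishOrd.smul {F : MvPolynomial σ K} {d : ℕ} (h : F.IsHomogeneous d) {p : σ → K} {a : ℕ}
    (hp : VanishOrd F p a) (s : K) : VanishOrd F (s • p) a := by
  intro L hL
  rw [eval_smul_of_isHomogeneous (iterD_isHomogeneous L h), hp L hL, mul_zero]

/-- If the orders of vanishing at two points exceed the degree, the form vanishes on the line. -/
lemma line_zero [CharZero K] {F : MvPolynomial σ K} {e : ℕ} (h : F.IsHomogeneous e)
    {p q : σ → K} {a b : ℕ} (hp : VanishOrd F p a) (hq : VanishOrd F q b) (hab : e < a + b) :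
    eval (p + q) F = 0 := by
  set c : σ → Polynomial K := fun j =>
    (1 - Polynomial.X) * Polynomial.C (p j) + Polynomial.X * Polynomial.C (q j) with hc
  have h0 : aeval c F = 0 := by
    by_contra hne
    have h1 : (Polynomial.X - Polynomial.C (0 : K)) ^ a ∣ aeval c F := by
      apply dvd_curve
      convert hp using 1
      funext j; simp [hc]
    have h2 : (Polynomial.X - Polynomial.C (1 : K)) ^ b ∣ aeval c F := by
      apply dvd_curve
      convert hq using 1
      funext j; simp [hc]
    have h3 := deg_bound (ι := Fin 2) (![(0 : K), 1]) (by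
      intro i j hij
      fin_cases i <;> fin_cases j <;> simp_all) ![a, b] _ hne (by
      intro i
      fin_cases i
      · exact h1
      · exact h2)
    have h4 : (aeval c F : Polynomial K).natDegree ≤ e * 1 := by
      apply MvPolynomial.aeval_natDegree_le _ h.totalDegree_le
      intro i
      simp only [hc]
      compute_degree
    simp at h3
    omega
  have h5 : eval (fun j => (c j).eval (1 / 2)) F = 0 := by
    rw [← eval_aeval_curve, h0]; simp
  have h6 : p + q = (2 : K) • (fun j => (c j).eval (1 / 2)) := by
    funext j
    simp only [hc, Pi.add_apply, Pi.smul_apply, smul_eq_mul, Polynomial.eval_add,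
      Polynomial.eval_mul, Polynomial.eval_sub, Polynomial.eval_one, Polynomial.eval_X,
      Polynomial.eval_C]
    field_simp
    ring
  rw [h6, eval_smul_of_isHomogeneous h, h5, mul_zero]

lemma line_ord [CharZero K] {F : MvPolynomial σ K} {d : ℕ} (h : F.IsHomogeneous d)
    {p q : σ → K} {a b : ℕ} (hp : VanishOrd F p a) (hq : VanishOrd F q b) :
    VanishOrd F (p + q) (a + b - d) := by
  intro L hL
  rcases Nat.lt_or_ge d L.length with h1 | h1
  · rw [iterD_eq_zero L h h1]; simp
  · exact line_zero (iterD_isHomogeneous L h) (hp.iterD L) (hq.iterD L) (by omega)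

lemma sum_ord [CharZero K] {F : MvPolynomial σ K} {d : ℕ} (h : F.IsHomogeneous d) (μ : ℕ) :
    ∀ (r : ℕ) (x : Fin (r + 1) → σ → K), (∀ i, VanishOrd F (x i) μ) →
      VanishOrd F (∑ i, x i) ((r + 1) * μ - r * d) := by
  intro r
  induction r with
  | zero => intro x hx; simpa using hx 0
  | succ r ih =>
    intro x hx
    rw [Fin.sum_univ_castSucc]
    have h1 := line_ord h (ih (fun i => x i.castSucc) (fun i => hx _)) (hx (Fin.last _))
    intro L hL
    apply h1 L
    have e1 : (r + 1 + 1) * μ = (r + 1) * μ + μ := by ring
    have e2 : (r + 1) * d = r * d + d := by ring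
    rw [e1, e2] at hL
    omega

variable [DecidableEq σ]

/-- The rational normal curve through the coordinate points (attained at the nodes `s i`). -/
noncomputable def crv (s : σ → K) (i : σ) : Polynomial K := Lagrange.basis Finset.univ s i

lemma crv_self {s : σ → K} (hs : Function.Injective s) (i : σ) : (crv s i).eval (s i) = 1 :=
  Lagrange.eval_basis_self (hs.injOn) (Finset.mem_univ i)

lemma crv_ne (s : σ → K) {i j : σ} (h : i ≠ j) : (crv s i).eval (s j) = 0 :=
  Lagrange.eval_basis_of_ne h (Finset.mem_univ j)

lemma natDegree_crv {s : σ → K} (hs : Function.Injective s) (i : σ) :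
    (crv s i).natDegree = Fintype.card σ - 1 := by
  rw [crv, Lagrange.natDegree_basis hs.injOn (Finset.mem_univ i), Finset.card_univ]

omit [Fintype σ] [DecidableEq σ] in
lemma sq_dvd (f : Polynomial K) (t : K) (h1 : f.eval t = 0)
    (h2 : (Polynomial.derivative f).eval t = 0) : (Polynomial.X - Polynomial.C t) ^ 2 ∣ f := by
  obtain ⟨e, rfl⟩ := Polynomial.dvd_iff_isRoot.2 h1
  rw [Polynomial.derivative_mul] at h2
  simp at h2
  obtain ⟨e', rfl⟩ := Polynomial.dvd_iff_isRoot.2 h2
  exact ⟨e', by ring⟩

lemma indep {s : σ → K} (hs : Function.Injective s) {l : ℕ} (hσ : Fintype.card σ = 2 * l + 2)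
    (τ : Fin (l + 1) → K) (hτ : Function.Injective τ) (g : σ → K)
    (h1 : ∀ i, ∑ j, (crv s j).eval (τ i) * g j = 0)
    (h2 : ∀ i, ∑ j, (Polynomial.derivative (crv s j)).eval (τ i) * g j = 0) : g = 0 := by
  set G : Polynomial K := ∑ j, crv s j * Polynomial.C (g j) with hG
  have hG0 : G = 0 := by
    by_contra hne
    have h3 : ∀ i, (Polynomial.X - Polynomial.C (τ i)) ^ 2 ∣ G := by
      intro i
      apply sq_dvd
      · rw [hG, Polynomial.eval_finsetSum, ← h1 i]
        exact Finset.sum_congr rfl fun j _ => by simp
      · rw [hG, Polynomial.derivative_sum, Polynomial.eval_finsetSum, ← h2 i]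
        exact Finset.sum_congr rfl fun j _ => by simp
    have h4 := deg_bound τ hτ (fun _ => 2) G hne h3
    have h5 : G.natDegree ≤ 2 * l + 1 := by
      rw [hG]
      apply Polynomial.natDegree_sum_le_of_forall_le
      intro j _
      refine (Polynomial.natDegree_mul_C_le _ _).trans ?_
      rw [natDegree_crv hs, hσ]; omega
    simp at h4
    omega
  funext j
  have h3 := congrArg (Polynomial.eval (s j)) hG0
  rw [hG, Polynomial.eval_finsetSum, Finset.sum_eq_single j] at h3
  · simpa [crv_self hs] using h3
  · intro b _ hb
    simp [crv_ne s hb]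
  · intro h; exact absurd (Finset.mem_univ j) h

/-- Sums of `l+1` points of the curve fill up the space: a form vanishing on them is zero. -/
lemma dens [CharZero K] {s : σ → K} (hs : Function.Injective s) {l : ℕ}
    (hσ : Fintype.card σ = 2 * l + 2) (e : ℕ) :
    ∀ H : MvPolynomial σ K, H.IsHomogeneous e →
    (∀ w τ : Fin (l + 1) → K, (∀ i, w i ≠ 0) → Function.Injective τ →
      eval (∑ i, w i • (fun j => (crv s j).eval (τ i))) H = 0) → H = 0 := by
  induction e with
  | zero =>
    intro H hH hv
    have h1 := hv (fun _ => 1) (fun i => ((i : ℕ) : K)) (by simp)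
      (fun a b hab => by simpa [Fin.ext_iff] using hab)
    rw [← totalDegree_zero_iff_isHomogeneous, totalDegree_eq_zero_iff_eq_C] at hH
    rw [hH] at h1 ⊢
    simp only [eval_C] at h1
    rw [h1, map_zero]
  | succ e ih =>
    intro H hH hv
    have key : ∀ j, pderiv j H = 0 := by
      intro j
      apply ih _ hH.pderiv
      intro w τ hw hτ
      set x : σ → K := ∑ i, w i • (fun j => (crv s j).eval (τ i)) with hx
      have hxj : ∀ j, x j = ∑ i, w i * (crv s j).eval (τ i) := by
        intro j; simp [hx]
      have hg := indep hs hσ τ hτ (fun j => eval x (pderiv j H)) ?_ ?_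
      · exact congrFun hg j
      · intro i
        set c1 : σ → Polynomial K := fun j =>
          Polynomial.C (x j - w i * (crv s j).eval (τ i)) +
            Polynomial.X * Polynomial.C ((crv s j).eval (τ i)) with hc1
        have hφ : aeval c1 H = 0 := by
          apply Polynomial.eq_zero_of_infinite_isRoot
          refine Set.Infinite.mono ?_ (Set.Finite.infinite_compl (Set.finite_singleton (0 : K)))
          intro z hz
          have hz' : z ≠ 0 := by simpa using hz
          rw [Set.mem_ofPred_eq, Polynomial.IsRoot.def, eval_aeval_curve]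
          have h2 := hv (Function.update w i z) τ (by
            intro i'
            by_cases h : i' = i
            · subst h; simpa using hz'
            · rw [Function.update_of_ne h]; exact hw i') hτ
          convert h2 using 3
          funext j
          simp only [hc1, Polynomial.eval_add, Polynomial.eval_mul, Polynomial.eval_C,
            Polynomial.eval_X, Finset.sum_apply, Pi.smul_apply, smul_eq_mul]
          rw [hxj j, ← Finset.add_sum_erase _ _ (Finset.mem_univ i),
            ← Finset.add_sum_erase Finset.univ (fun i' => Function.update w i z i' * _)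
              (Finset.mem_univ i), Function.update_self]
          have : ∑ x ∈ Finset.univ.erase i, Function.update w i z x * (crv s j).eval (τ x) =
              ∑ x ∈ Finset.univ.erase i, w x * (crv s j).eval (τ x) := by
            refine Finset.sum_congr rfl fun y hy => ?_
            rw [Function.update_of_ne (Finset.ne_of_mem_erase hy)]
          rw [this]; ring
        have h3 := congrArg (fun f => (Polynomial.derivative f).eval (w i)) hφ
        simp only [chain, Polynomial.derivative_zero, Polynomial.eval_zero,
          Polynomial.eval_finsetSum, Polynomial.eval_mul, eval_aeval_curve] at h3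
        rw [← h3]
        refine Finset.sum_congr rfl fun j _ => ?_
        congr 1
        · simp [hc1]
        · congr 2
          funext j'
          simp only [hc1, Polynomial.eval_add, Polynomial.eval_mul, Polynomial.eval_C,
            Polynomial.eval_X]
          ring
      · intro i
        set c2 : σ → Polynomial K := fun j =>
          Polynomial.C (x j - w i * (crv s j).eval (τ i)) +
            Polynomial.C (w i) * crv s j with hc2
        have hφ : aeval c2 H = 0 := by
          apply Polynomial.eq_zero_of_infinite_isRoot
          refine Set.Infinite.mono ?_ (Set.Finite.infinite_compl (Set.finite_range τ))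
          intro z hz
          have hz' : ∀ i', τ i' ≠ z := by
            intro i' h; exact hz ⟨i', h⟩
          rw [Set.mem_ofPred_eq, Polynomial.IsRoot.def, eval_aeval_curve]
          have h2 := hv w (Function.update τ i z) hw (by
            intro a b hab
            by_cases ha : a = i <;> by_cases hb : b = i
            · rw [ha, hb]
            · subst ha
              rw [Function.update_self, Function.update_of_ne hb] at hab
              exact absurd hab.symm (hz' b)
            · subst hb
              rw [Function.update_self, Function.update_of_ne ha] at hab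
              exact absurd hab (hz' a)
            · rw [Function.update_of_ne ha, Function.update_of_ne hb] at hab
              exact hτ hab)
          convert h2 using 3
          funext j
          simp only [hc2, Polynomial.eval_add, Polynomial.eval_mul, Polynomial.eval_C,
            Finset.sum_apply, Pi.smul_apply, smul_eq_mul]
          rw [hxj j, ← Finset.add_sum_erase _ _ (Finset.mem_univ i),
            ← Finset.add_sum_erase Finset.univ
              (fun i' => w i' * (crv s j).eval (Function.update τ i z i'))
              (Finset.mem_univ i), Function.update_self]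
          have : ∑ x ∈ Finset.univ.erase i, w x * (crv s j).eval (Function.update τ i z x) =
              ∑ x ∈ Finset.univ.erase i, w x * (crv s j).eval (τ x) := by
            refine Finset.sum_congr rfl fun y hy => ?_
            rw [Function.update_of_ne (Finset.ne_of_mem_erase hy)]
          rw [this]; ring
        have h3 := congrArg (fun f => (Polynomial.derivative f).eval (τ i)) hφ
        simp only [chain, Polynomial.derivative_zero, Polynomial.eval_zero,
          Polynomial.eval_finsetSum, Polynomial.eval_mul, eval_aeval_curve] at h3
        have h4 : w i * ∑ j, (Polynomial.derivative (crv s j)).eval (τ i) *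
            eval x (pderiv j H) = 0 := by
          rw [← h3, Finset.mul_sum]
          refine Finset.sum_congr rfl fun j _ => ?_
          rw [← mul_assoc]
          congr 1
          · simp [hc2]
          · congr 2
            funext j'
            simp only [hc2, Polynomial.eval_add, Polynomial.eval_mul, Polynomial.eval_C]
            ring
        exact (mul_eq_zero.1 h4).resolve_left (hw i)
    have h5 := hH.sum_X_mul_pderiv
    simp only [key, mul_zero, Finset.sum_const_zero] at h5
    have h6 : ((e + 1 : ℕ) : MvPolynomial σ K) * H = 0 := by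
      rw [← nsmul_eq_mul]; exact h5.symm
    rcases mul_eq_zero.1 h6 with h7 | h7
    · exact absurd h7 (Nat.cast_ne_zero.2 (by omega))
    · exact h7

/-- The points of the curve. -/
noncomputable def pt (s : σ → K) (τ : K) : σ → K := fun i => (crv s i).eval τ

/-- Bound for the order of vanishing along the curve. -/
lemma mu_bound [CharZero K] {s : σ → K} (hs : Function.Injective s) {l : ℕ}
    (hσ : Fintype.card σ = 2 * l + 2) {F : MvPolynomial σ K} (hF : F ≠ 0) {d : ℕ}
    (hd : F.IsHomogeneous d) {μ : ℕ}
    (hμ : ∀ L : List σ, L.length < μ → aeval (crv s) (iterD L F) = 0) :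
    (l + 1) * μ ≤ l * d := by
  by_contra hcon
  push Not at hcon
  apply hF
  apply dens hs hσ d F hd
  intro w τ _ _
  have h1 : ∀ τ0, VanishOrd F (pt s τ0) μ := by
    intro τ0 L hL
    have := congrArg (Polynomial.eval τ0) (hμ L hL)
    rw [eval_aeval_curve, Polynomial.eval_zero] at this
    exact this
  have h2 := sum_ord hd μ l (fun i => w i • pt s (τ i)) (fun i => (h1 _).smul hd _)
  exact h2 [] (by simp; omega)

/-- Extra order of vanishing at the coordinate points. -/
lemma extra [CharZero K] {s : σ → K} (hs : Function.Injective s) {F : MvPolynomial σ K} {d : ℕ}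
    (hd : F.IsHomogeneous d) {μ : ℕ}
    (hμ : ∀ L : List σ, L.length < μ → aeval (crv s) (iterD L F) = 0) (i : σ) (k : ℕ)
    (hk : F ∈ pointIdeal (pt s (s i)) ^ k) (m : ℕ) :
    ∀ L : List σ, L.length = μ → L.count i = m →
      (Polynomial.X - Polynomial.C (s i)) ^ ((k - μ) + 2 * m) ∣ aeval (crv s) (iterD L F) := by
  induction m with
  | zero =>
    intro L hL _
    rw [mul_zero, add_zero]
    have := iterD_mem_pow _ L hk
    rw [hL] at this
    exact aeval_mem_of_mem_pointIdeal (crv s) (s i) _ (fun _ => rfl) this
  | succ m ih =>
    intro L hL hc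
    have hmem : i ∈ L := by
      rw [← List.count_pos_iff]; omega
    have hperm := List.perm_cons_erase hmem
    rw [iterD_perm hperm]
    set L' := L.erase i with hL'
    have hlen : L'.length = μ - 1 := by
      rw [hL', List.length_erase_of_mem hmem, hL]
    have hμpos : 0 < μ := by
      rw [← hL]; exact List.length_pos_of_mem hmem
    have hcnt : L'.count i = m := by
      rw [hL', List.count_erase_self]; omega
    have hz : aeval (crv s) (iterD L' F) = 0 := hμ L' (by omega)
    have hchain := chain (crv s) (iterD L' F)
    rw [hz, Polynomial.derivative_zero] at hchain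
    have heuler := euler (crv s) (iterD_isHomogeneous L' hd)
    rw [hz, smul_zero] at heuler
    set δ := Polynomial.X - Polynomial.C (s i) with hδ
    have hsum : ∑ j, (crv s j - δ * Polynomial.derivative (crv s j)) *
        aeval (crv s) (pderiv j (iterD L' F)) = 0 := by
      have : ∑ j, (crv s j - δ * Polynomial.derivative (crv s j)) *
        aeval (crv s) (pderiv j (iterD L' F)) =
          ∑ j, crv s j * aeval (crv s) (pderiv j (iterD L' F)) -
          δ * ∑ j, Polynomial.derivative (crv s j) * aeval (crv s) (pderiv j (iterD L' F)) := by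
        rw [Finset.mul_sum, ← Finset.sum_sub_distrib]
        exact Finset.sum_congr rfl fun j _ => by ring
      rw [this, heuler, ← hchain]; simp
    rw [← Finset.add_sum_erase _ _ (Finset.mem_univ i)] at hsum
    have hdvd : δ ^ ((k - μ) + 2 * (m + 1)) ∣ ∑ j ∈ Finset.univ.erase i,
        (crv s j - δ * Polynomial.derivative (crv s j)) *
        aeval (crv s) (pderiv j (iterD L' F)) := by
      refine Finset.dvd_sum fun j hj => ?_
      have hji : j ≠ i := Finset.ne_of_mem_erase hj
      have e1 : δ ^ ((k - μ) + 2 * (m + 1)) = δ ^ 2 * δ ^ ((k - μ) + 2 * m) := by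
        rw [← pow_add]; congr 1; ring
      rw [e1]
      apply mul_dvd_mul
      · obtain ⟨e, he⟩ := Polynomial.dvd_iff_isRoot.2 (crv_ne s hji)
        refine ⟨-Polynomial.derivative e, ?_⟩
        have hder : Polynomial.derivative (crv s j) = e + δ * Polynomial.derivative e := by
          rw [he, Polynomial.derivative_mul]
          simp [hδ]
        rw [hder, he]; ring
      · have := ih (j :: L') (by rw [List.length_cons, hlen]; omega) (by
          rw [List.count_cons_of_ne hji]; exact hcnt)
        rwa [iterD_cons] at this
    have h1 : δ ^ ((k - μ) + 2 * (m + 1)) ∣ (crv s i - δ * Polynomial.derivative (crv s i)) *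
        aeval (crv s) (pderiv i (iterD L' F)) := by
      rw [eq_neg_of_add_eq_zero_left hsum]
      exact (dvd_neg).2 hdvd
    rw [iterD_cons]
    refine IsCoprime.dvd_of_dvd_mul_left ?_ h1
    apply IsCoprime.pow_left
    rw [hδ]
    apply (Polynomial.irreducible_X_sub_C (s i)).coprime_iff_not_dvd.2
    rw [Polynomial.dvd_iff_isRoot, Polynomial.IsRoot.def]
    simp [crv_self hs]

/-- The lower bound for the initial degree. -/
theorem lower [CharZero K] {t : σ ⊕ Fin 2 → K} (ht : Function.Injective t) {l : ℕ}
    (hσ : Fintype.card σ = 2 * l + 2) {F : MvPolynomial σ K} (hF : F ≠ 0) {d : ℕ}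
    (hd : F.IsHomogeneous d) {k : ℕ}
    (hk : ∀ a, F ∈ pointIdeal (pt (fun i => t (Sum.inl i)) (t a)) ^ k) :
    k * ((l + 1) * (2 * l + 4)) ≤ d * (2 * l ^ 2 + 4 * l + 1) := by
  set s : σ → K := fun i => t (Sum.inl i) with hsdef
  have hs : Function.Injective s := fun a b hab => Sum.inl_injective (ht hab)
  -- existence of the order of vanishing along the curve
  have hex : ∃ μ, ∃ L : List σ, L.length = μ ∧ aeval (crv s) (iterD L F) ≠ 0 := by
    by_contra hcon
    push Not at hcon
    have := mu_bound hs hσ hF hd (μ := l * d + 1) (fun L _ => hcon _ L rfl)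
    nlinarith [Nat.zero_le (l * (l * d)), Nat.zero_le l]
  classical
  set μ := Nat.find hex with hμdef
  obtain ⟨L, hL, hne⟩ := Nat.find_spec hex
  rw [← hμdef] at hL
  have hμ : ∀ L : List σ, L.length < μ → aeval (crv s) (iterD L F) = 0 := by
    intro L' hL'
    by_contra hcon
    exact Nat.find_min hex hL' ⟨L', rfl, hcon⟩
  have hb := mu_bound hs hσ hF hd hμ
  have hμd : μ ≤ d := by
    by_contra hcon
    push Not at hcon
    rw [iterD_eq_zero L hd (by omega)] at hne
    simp at hne
  have hcount := deg_bound t ht
    (fun a => Sum.elim (fun i => (k - μ) + 2 * L.count i) (fun _ => k - μ) a) _ hne (by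
      intro a
      rcases a with i | a
      · exact extra hs hd hμ i k (hk _) _ L hL rfl
      · have := iterD_mem_pow _ L (hk (Sum.inr a))
        rw [hL] at this
        exact aeval_mem_of_mem_pointIdeal (crv s) _ _ (fun _ => rfl) this)
  have hdeg : (aeval (crv s) (iterD L F) : Polynomial K).natDegree ≤ (d - μ) * (2 * l + 1) := by
    apply MvPolynomial.aeval_natDegree_le
    · have := (iterD_isHomogeneous L hd).totalDegree_le
      rwa [hL] at this
    · intro i
      rw [natDegree_crv hs, hσ]; omega
  rw [Fintype.sum_sum_type] at hcount
  simp only [Sum.elim_inl, Sum.elim_inr, Finset.sum_add_distrib, ← Finset.mul_sum,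
    Finset.sum_const, Finset.card_univ, Fintype.card_fin, hσ, smul_eq_mul] at hcount
  have hsumcount : ∑ i, L.count i = μ := by
    have := Multiset.sum_count_eq_card (s := Finset.univ) (m := (L : Multiset σ)) (by simp)
    simpa [hL] using this
  rw [hsumcount] at hcount
  have hfin := hcount.trans hdeg
  obtain ⟨r, rfl⟩ := Nat.exists_eq_add_of_le hμd
  rw [Nat.add_sub_cancel_left] at hfin
  rcases Nat.lt_or_ge μ k with h | h
  · obtain ⟨e, rfl⟩ := Nat.exists_eq_add_of_lt h
    have e1 : μ + e + 1 - μ = e + 1 := by omega
    rw [e1] at hfin
    nlinarith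
  · have e1 : k - μ = 0 := by omega
    rw [e1] at hfin
    nlinarith

end Pool.Agent.V1184.SymPow
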