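import Mathlib
import Pool.Agent.V1184.SymPow.Lower

/-!
# Upper bound for the initial degree
-/

namespace Pool.Agent.V1184.SymPow

open MvPolynomial

variable {K : Type*} [Field K] {σ : Type*} [Fintype σ]

/-- The linear form attached to a polynomial. -/
noncomputable def lin (s : σ → K) (g : Polynomial K) : MvPolynomial σ K :=
  ∑ i, C (g.eval (s i)) * X i

lemma lin_isHomogeneous (s : σ → K) (g : Polynomial K) : (lin s g).IsHomogeneous 1 := by
  apply IsHomogeneous.sum
  intro i _
  simpa using (isHomogeneous_C σ (g.eval (s i))).mul (isHomogeneous_X K i)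

lemma lin_sub_C_mul (s : σ → K) (g h : Polynomial K) (a : K) :
    lin s g - C a * lin s h = lin s (g - Polynomial.C a * h) := by
  rw [lin, lin, lin, Finset.mul_sum, ← Finset.sum_sub_distrib]
  refine Finset.sum_congr rfl fun i _ => ?_
  simp only [Polynomial.eval_sub, Polynomial.eval_mul, Polynomial.eval_C, map_sub, map_mul]
  ring

variable [DecidableEq σ]

lemma interp {s : σ → K} (hs : Function.Injective s) {g : Polynomial K}
    (hg : g.degree < Fintype.card σ) : ∑ i, Polynomial.C (g.eval (s i)) * crv s i = g := by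
  have := Lagrange.eq_interpolate (s := Finset.univ) (v := s) hs.injOn (f := g)
    (by rwa [Finset.card_univ])
  conv_rhs => rw [this]
  rw [Lagrange.interpolate_apply]
  rfl

lemma eval_lin {s : σ → K} (hs : Function.Injective s) {g : Polynomial K}
    (hg : g.degree < Fintype.card σ) (τ : K) : eval (pt s τ) (lin s g) = g.eval τ := by
  conv_rhs => rw [← interp hs hg]
  rw [lin, map_sum, Polynomial.eval_finsetSum]
  refine Finset.sum_congr rfl fun i _ => ?_
  simp [pt]

lemma coeff_lin {s : σ → K} (hs : Function.Injective s) {g : Polynomial K}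
    (hg : g.degree < Fintype.card σ) (m : ℕ) :
    eval (fun i => (crv s i).coeff m) (lin s g) = g.coeff m := by
  conv_rhs => rw [← interp hs hg]
  rw [lin, map_sum, Polynomial.finsetSum_coeff]
  refine Finset.sum_congr rfl fun i _ => ?_
  simp

lemma lin_mem {s : σ → K} (hs : Function.Injective s) {g : Polynomial K}
    (hg : g.degree < Fintype.card σ) {τ : K} (h : g.eval τ = 0) :
    lin s g ∈ pointIdeal (pt s τ) :=
  Ideal.subset_span ⟨⟨1, lin_isHomogeneous s g⟩, by rw [eval_lin hs hg, h]⟩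

omit [Fintype σ] [DecidableEq σ] in
lemma det_mem_pow (P : Ideal (MvPolynomial σ K)) {r : ℕ}
    (A : Matrix (Fin r) (Fin r) (MvPolynomial σ K)) (hA : ∀ a b, A a b ∈ P) :
    A.det ∈ P ^ r := by
  rw [Matrix.det_apply]
  refine Ideal.sum_mem _ fun e _ => ?_
  have h1 : ∏ i, A (e i) i ∈ P ^ r := by
    have := Ideal.prod_mem_prod (s := Finset.univ) (I := fun _ : Fin r => P)
      (x := fun i => A (e i) i) (fun i _ => hA _ _)
    simpa using this
  rw [Units.smul_def]
  exact zsmul_mem h1 _

/-- Hankel-type determinants. -/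
lemma exists_det {t : σ ⊕ Fin 2 → K} (ht : Function.Injective t) {l : ℕ}
    (hσ : Fintype.card σ = 2 * l + 2) (I : Finset (σ ⊕ Fin 2)) (r : ℕ)
    (hI : I.card + 2 * r = 2 * l + 1) :
    ∃ D : MvPolynomial σ K, D ≠ 0 ∧ D.IsHomogeneous (r + 1) ∧
      (∀ a, D ∈ pointIdeal (pt (fun i => t (Sum.inl i)) (t a)) ^ r) ∧
      (∀ a ∈ I, D ∈ pointIdeal (pt (fun i => t (Sum.inl i)) (t a)) ^ (r + 1)) := by
  set s : σ → K := fun i => t (Sum.inl i) with hsdef
  have hs : Function.Injective s := fun a b hab => Sum.inl_injective (ht hab)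
  set A : Polynomial K := ∏ j ∈ I, (Polynomial.X - Polynomial.C (t j)) with hA
  have hAmonic : A.Monic := Polynomial.monic_prod_of_monic _ _ (fun j _ => Polynomial.monic_X_sub_C _)
  have hAdeg : A.natDegree = I.card := by
    rw [hA, Polynomial.natDegree_prod_of_monic _ _ (fun j _ => Polynomial.monic_X_sub_C _)]
    simp
  have hdeg : ∀ (a b : Fin (r + 1)) (g : Polynomial K), g.natDegree ≤ (a : ℕ) →
      (A * (g * Polynomial.X ^ (r - (b : ℕ)))).degree < ((Fintype.card σ : ℕ) : WithBot ℕ) := by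
    intro a b g hg
    apply lt_of_le_of_lt Polynomial.degree_le_natDegree
    rw [hσ]
    norm_cast
    have h1 := Polynomial.natDegree_mul_le (p := A) (q := g * Polynomial.X ^ (r - (b : ℕ)))
    have h2 := Polynomial.natDegree_mul_le (p := g) (q := Polynomial.X ^ (r - (b : ℕ)))
    rw [Polynomial.natDegree_X_pow] at h2
    have := a.2
    omega
  set M : Matrix (Fin (r + 1)) (Fin (r + 1)) (MvPolynomial σ K) :=
    Matrix.of fun a b => lin s (A * (Polynomial.X ^ (a : ℕ) * Polynomial.X ^ (r - (b : ℕ)))) with hM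
  have hMX : ∀ (a b : Fin (r + 1)),
      (A * (Polynomial.X ^ (a : ℕ) * Polynomial.X ^ (r - (b : ℕ)))).degree <
        ((Fintype.card σ : ℕ) : WithBot ℕ) :=
    fun a b => hdeg a b _ (by rw [Polynomial.natDegree_X_pow])
  refine ⟨M.det, ?_, ?_, ?_, ?_⟩
  · intro h0
    have h1 := congrArg (eval (fun i => (crv s i).coeff (I.card + r))) h0
    rw [RingHom.map_det, map_zero, Matrix.det_of_isLowerTriangular] at h1
    · have h2 : ∀ a, (RingHom.mapMatrix (eval (fun i => (crv s i).coeff (I.card + r))) M) a a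
          = 1 := by
        intro a
        rw [RingHom.mapMatrix_apply, Matrix.map_apply, hM, Matrix.of_apply, coeff_lin hs (hMX a a),
          ← pow_add]
        have : (a : ℕ) + (r - (a : ℕ)) = r := by have := a.2; omega
        rw [this, Polynomial.coeff_mul_X_pow, ← hAdeg]
        exact hAmonic.coeff_natDegree
      simp only [h2, Finset.prod_const_one] at h1
      exact one_ne_zero h1
    · intro a b hab
      have hab' : a < b := by simpa using hab
      rw [RingHom.mapMatrix_apply, Matrix.map_apply, hM, Matrix.of_apply, coeff_lin hs (hMX a b),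
        ← pow_add]
      rw [Polynomial.coeff_mul_X_pow']
      split_ifs with h
      · apply Polynomial.coeff_eq_zero_of_natDegree_lt
        rw [hAdeg]
        have := b.2
        have : (a : ℕ) < b := hab'
        omega
      · rfl
  · rw [Matrix.det_apply]
    apply IsHomogeneous.sum
    intro e _
    have h1 : (∏ i, M (e i) i).IsHomogeneous (∑ _i : Fin (r + 1), 1) :=
      IsHomogeneous.prod _ _ _ fun i _ => lin_isHomogeneous s _
    simp only [Finset.sum_const, Finset.card_univ, Fintype.card_fin, smul_eq_mul, mul_one] at h1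
    rw [Units.smul_def]
    rw [zsmul_eq_mul]
    have h2 : (((Equiv.Perm.sign e : ℤˣ) : ℤ) : MvPolynomial σ K).IsHomogeneous 0 := by
      have := isHomogeneous_C σ ((((Equiv.Perm.sign e : ℤˣ) : ℤ)) : K)
      simpa using this
    simpa using h2.mul h1
  · intro a
    set M' : Matrix (Fin (r + 1)) (Fin (r + 1)) (MvPolynomial σ K) :=
      Matrix.of fun x y => M x y - (if x = 0 then 0 else C ((t a) ^ (x : ℕ))) * M 0 y with hM'
    have hdet : M.det = M'.det := by
      apply Matrix.det_eq_of_forall_row_eq_smul_add_const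
        (fun x : Fin (r + 1) => if x = 0 then 0 else C ((t a) ^ (x : ℕ))) (0 : Fin (r + 1)) (by simp)
      intro x y
      simp [hM']
    rw [hdet, Matrix.det_succ_row_zero]
    refine Ideal.sum_mem _ fun y _ => ?_
    apply Ideal.mul_mem_left
    apply det_mem_pow
    intro x z
    rw [Matrix.submatrix_apply, hM', Matrix.of_apply, if_neg (Fin.succ_ne_zero x), hM,
      Matrix.of_apply, Matrix.of_apply, lin_sub_C_mul]
    have e1 : ∀ b : Fin (r + 1), A * (Polynomial.X ^ ((Fin.succ x : Fin (r + 1)) : ℕ) *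
        Polynomial.X ^ (r - (b : ℕ))) -
        Polynomial.C (t a ^ ((Fin.succ x : Fin (r + 1)) : ℕ)) *
          (A * (Polynomial.X ^ ((0 : Fin (r + 1)) : ℕ) * Polynomial.X ^ (r - (b : ℕ)))) =
        A * ((Polynomial.X ^ ((Fin.succ x : Fin (r + 1)) : ℕ) -
          Polynomial.C (t a ^ ((Fin.succ x : Fin (r + 1)) : ℕ))) *
          Polynomial.X ^ (r - (b : ℕ))) := by
      intro b
      simp only [Fin.val_zero, pow_zero]
      ring
    rw [e1]
    apply lin_mem hs
    · apply hdeg (Fin.succ x)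
      rw [Polynomial.natDegree_X_pow_sub_C]
    · simp
  · intro a ha
    apply det_mem_pow
    intro x y
    rw [hM, Matrix.of_apply]
    apply lin_mem hs (hMX x y)
    have : A.eval (t a) = 0 := by
      rw [hA, Polynomial.eval_prod]
      exact Finset.prod_eq_zero ha (by simp)
    rw [Polynomial.eval_mul, this, zero_mul]

/-- Products of the degree `l+1` determinants. -/
lemma exists_prod {t : σ ⊕ Fin 2 → K} (ht : Function.Injective t) {l : ℕ}
    (hσ : Fintype.card σ = 2 * l + 2) (q : ℕ) (v : σ ⊕ Fin 2 → ℕ) (hv : ∑ a, v a ≤ q) :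
    ∃ F : MvPolynomial σ K, F ≠ 0 ∧ F.IsHomogeneous (q * (l + 1)) ∧
      ∀ a, F ∈ pointIdeal (pt (fun i => t (Sum.inl i)) (t a)) ^ (q * l + v a) := by
  set P : σ ⊕ Fin 2 → Ideal (MvPolynomial σ K) :=
    fun a => pointIdeal (pt (fun i => t (Sum.inl i)) (t a)) with hP
  have hD : ∀ a : σ ⊕ Fin 2, ∃ D : MvPolynomial σ K, D ≠ 0 ∧ D.IsHomogeneous (l + 1) ∧
      (∀ b, D ∈ P b ^ l) ∧ (∀ b ∈ ({a} : Finset (σ ⊕ Fin 2)), D ∈ P b ^ (l + 1)) := fun a =>
    exists_det ht hσ {a} l (by rw [Finset.card_singleton]; ring)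
  choose D hD0 hDh hDl hDs using hD
  set a0 : σ ⊕ Fin 2 := Sum.inr 0
  refine ⟨(∏ b, D b ^ v b) * D a0 ^ (q - ∑ b, v b), ?_, ?_, ?_⟩
  · exact mul_ne_zero (Finset.prod_ne_zero_iff.2 fun b _ => pow_ne_zero _ (hD0 b))
      (pow_ne_zero _ (hD0 a0))
  · have h1 : (∏ b, D b ^ v b).IsHomogeneous (∑ b, (l + 1) * v b) :=
      IsHomogeneous.prod _ _ _ fun b _ => (hDh b).pow _
    have h2 := h1.mul ((hDh a0).pow (q - ∑ b, v b))
    convert h2 using 1
    rw [← Finset.mul_sum, ← mul_add, Nat.add_sub_cancel' hv, mul_comm]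
  · intro a
    have h1 : ∀ b, D b ^ v b ∈ P a ^ (l * v b + if b = a then v b else 0) := by
      intro b
      by_cases hba : b = a
      · subst hba
        have := Ideal.pow_mem_pow (hDs b b (by simp)) (v b)
        rw [← pow_mul] at this
        rw [if_pos rfl]
        convert this using 2
        ring
      · rw [if_neg hba, add_zero, pow_mul]
        exact Ideal.pow_mem_pow (hDl b a) _
    have h2 := Ideal.prod_mem_prod (s := Finset.univ) (fun b _ => h1 b)
    rw [Finset.prod_pow_eq_pow_sum, Finset.sum_add_distrib, ← Finset.mul_sum,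
      Finset.sum_ite_eq' Finset.univ a v, if_pos (Finset.mem_univ a)] at h2
    have h3 := Ideal.pow_mem_pow (hDl a0 a) (q - ∑ b, v b)
    rw [← pow_mul] at h3
    have h4 := Ideal.mul_mem_mul h2 h3
    rw [← pow_add] at h4
    convert h4 using 2
    obtain ⟨w, hw⟩ := Nat.exists_eq_add_of_le hv
    rw [hw, Nat.add_sub_cancel_left]
    ring

/-- The upper bound for the initial degree. -/
theorem upper {t : σ ⊕ Fin 2 → K} (ht : Function.Injective t) {l : ℕ}
    (hσ : Fintype.card σ = 2 * l + 2) {d k : ℕ}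
    (hdk : k * ((l + 1) * (2 * l + 4)) ≤ d * (2 * l ^ 2 + 4 * l + 1)) :
    ∃ F : MvPolynomial σ K, F ≠ 0 ∧ F.IsHomogeneous d ∧
      ∀ a, F ∈ pointIdeal (pt (fun i => t (Sum.inl i)) (t a)) ^ k := by
  have hι : Fintype.card (σ ⊕ Fin 2) = 2 * l + 4 := by
    rw [Fintype.card_sum, hσ, Fintype.card_fin]
  obtain ⟨q, r, hr, rfl⟩ : ∃ q r, r < l + 1 ∧ d = q * (l + 1) + r :=
    ⟨d / (l + 1), d % (l + 1), Nat.mod_lt _ (by omega), by
      rw [mul_comm]; exact (Nat.div_add_mod d (l + 1)).symm⟩
  rcases Nat.eq_zero_or_pos r with rfl | hrpos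
  · rw [add_zero] at hdk ⊢
    have hv : ∑ _a : σ ⊕ Fin 2, (k - q * l) ≤ q := by
      rw [Finset.sum_const, Finset.card_univ, hι, smul_eq_mul]
      rcases Nat.le_total k (q * l) with h | h
      · rw [Nat.sub_eq_zero_of_le h]; simp
      · obtain ⟨e, rfl⟩ := Nat.exists_eq_add_of_le h
        rw [Nat.add_sub_cancel_left]
        have h1 : (l + 1) * ((2 * l + 4) * e) ≤ (l + 1) * q := by nlinarith
        exact Nat.le_of_mul_le_mul_left h1 (by omega)
    obtain ⟨F, hF0, hFh, hF⟩ := exists_prod ht hσ q (fun _ => k - q * l) hv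
    exact ⟨F, hF0, hFh, fun a => Ideal.pow_le_pow_right (by omega) (hF a)⟩
  · obtain ⟨J, hJ⟩ : ∃ J : Finset (σ ⊕ Fin 2), J.card = 2 * r + 1 := by
      obtain ⟨J, _, hJ⟩ := Finset.exists_subset_card_eq (s := (Finset.univ : Finset (σ ⊕ Fin 2)))
        (n := 2 * r + 1) (by rw [Finset.card_univ, hι]; omega)
      exact ⟨J, hJ⟩
    have hJc : Jᶜ.card + 2 * (r - 1) = 2 * l + 1 := by
      rw [Finset.card_compl, hι, hJ]; omega
    obtain ⟨D, hD0, hDh, hD1, hD2⟩ := exists_det ht hσ Jᶜ (r - 1) hJc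
    have hr1 : r - 1 + 1 = r := by omega
    rw [hr1] at hDh hD2
    rcases Nat.lt_or_ge k (q * l + r) with hk | hk
    · obtain ⟨F, hF0, hFh, hF⟩ := exists_prod ht hσ q (fun _ => 0) (by simp)
      refine ⟨F * D, mul_ne_zero hF0 hD0, hFh.mul hDh, fun a => ?_⟩
      have h1 := Ideal.mul_mem_mul (hF a) (hD1 a)
      rw [← pow_add] at h1
      exact Ideal.pow_le_pow_right (by omega) h1
    · obtain ⟨c, rfl⟩ := Nat.exists_eq_add_of_le hk
      have hc : (2 * l + 4) * c + (2 * r + 1) ≤ q := by
        have h1 : (l + 1) * ((2 * l + 4) * c + 2 * r) + r ≤ (l + 1) * q := by nlinarith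
        have h2 : (l + 1) * ((2 * l + 4) * c + 2 * r) < (l + 1) * q := by omega
        have h3 := Nat.lt_of_mul_lt_mul_left h2
        omega
      have hv : ∑ a : σ ⊕ Fin 2, (c + if a ∈ J then 1 else 0) ≤ q := by
        rw [Finset.sum_add_distrib, Finset.sum_const, Finset.card_univ, hι, smul_eq_mul]
        have : ∑ a : σ ⊕ Fin 2, (if a ∈ J then 1 else 0) = J.card := by simp
        rw [this, hJ]
        exact hc
      obtain ⟨F, hF0, hFh, hF⟩ := exists_prod ht hσ q _ hv
      refine ⟨F * D, mul_ne_zero hF0 hD0, hFh.mul hDh, fun a => ?_⟩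
      by_cases ha : a ∈ J
      · have h1 := Ideal.mul_mem_mul (hF a) (hD1 a)
        rw [← pow_add, if_pos ha] at h1
        exact Ideal.pow_le_pow_right (by omega) h1
      · have h1 := Ideal.mul_mem_mul (hF a) (hD2 a (by simpa using ha))
        rw [← pow_add, if_neg ha] at h1
        exact Ideal.pow_le_pow_right (by omega) h1

end Pool.Agent.V1184.SymPow
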