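import Mathlib
import Pool.Agent.V1184.SymPow.Upper

/-!
# Change of coordinates: `n+3` points in linearly general position lie on a rational normal curve
-/

namespace Pool.Agent.V1184.SymPow

open MvPolynomial

variable {K : Type*} [Field K] {σ : Type*} [Fintype σ]

/-- Linear substitution. -/
noncomputable def subst (A : Matrix σ σ K) : MvPolynomial σ K →ₐ[K] MvPolynomial σ K :=
  aeval (fun i => ∑ j, C (A i j) * X j)

lemma eval_subst (A : Matrix σ σ K) (x : σ → K) (F : MvPolynomial σ K) :
    eval x (subst A F) = eval (A.mulVec x) F := by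
  have h : (eval x).comp (subst A : MvPolynomial σ K →+* MvPolynomial σ K) =
      (eval (A.mulVec x) : MvPolynomial σ K →+* K) := by
    ext i
    · simp [subst]
    · simp [subst, Matrix.mulVec, dotProduct]
  have := congrArg (fun f : MvPolynomial σ K →+* K => f F) h
  simpa using this

lemma subst_isHomogeneous (A : Matrix σ σ K) {F : MvPolynomial σ K} {d : ℕ}
    (h : F.IsHomogeneous d) : (subst A F).IsHomogeneous d := by
  have := h.aeval (fun i => ∑ j, C (A i j) * X j) (n := 1) (by
    intro i
    apply IsHomogeneous.sum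
    intro j _
    simpa using (isHomogeneous_C σ (A i j)).mul (isHomogeneous_X K j))
  simpa [subst] using this

lemma subst_ne_zero [Infinite K] [DecidableEq σ] {A B : Matrix σ σ K} (hAB : A * B = 1)
    {F : MvPolynomial σ K} (hF : F ≠ 0) : subst A F ≠ 0 := by
  intro h
  apply hF
  apply MvPolynomial.funext
  intro x
  have h1 := congrArg (eval (B.mulVec x)) h
  rw [eval_subst, Matrix.mulVec_mulVec, hAB, Matrix.one_mulVec] at h1
  simpa using h1

lemma subst_mem (A : Matrix σ σ K) {p q : σ → K} {c : K} (h : A.mulVec q = c • p) {k : ℕ}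
    {F : MvPolynomial σ K} (hF : F ∈ pointIdeal p ^ k) : subst A F ∈ pointIdeal q ^ k := by
  have h1 : Ideal.map (subst A) (pointIdeal p) ≤ pointIdeal q := by
    conv_lhs => rw [pointIdeal]
    rw [Ideal.map_span, Ideal.span_le]
    rintro _ ⟨G, ⟨⟨d, hd⟩, hG⟩, rfl⟩
    apply Ideal.subset_span
    refine ⟨⟨d, subst_isHomogeneous A hd⟩, ?_⟩
    rw [eval_subst, h, eval_smul_of_isHomogeneous hd, hG, mul_zero]
  have h2 : subst A F ∈ (Ideal.map (subst A) (pointIdeal p)) ^ k := by
    rw [← Ideal.map_pow]
    exact Ideal.mem_map_of_mem _ hF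
  exact Ideal.pow_right_mono h1 k h2

variable [DecidableEq σ]

/-- Points in linearly general position are projectively equivalent to points of the curve. -/
theorem exists_coord [CharZero K] (p : σ ⊕ Fin 2 → σ → K)
    (hgen : ∀ T : Finset (σ ⊕ Fin 2), T.card = Fintype.card σ → ∀ a : σ → K,
      (∀ j ∈ T, ∑ i, a i * p j i = 0) → a = 0) :
    ∃ (t : σ ⊕ Fin 2 → K) (A : Matrix σ σ K) (c : σ ⊕ Fin 2 → K),
      Function.Injective t ∧ A.det ≠ 0 ∧ (∀ a, c a ≠ 0) ∧
      ∀ a, A.mulVec (pt (fun i => t (Sum.inl i)) (t a)) = c a • p a := by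
  classical
  -- the matrix of the first points
  set P : Matrix σ σ K := Matrix.of fun i r => p (Sum.inl i) r with hP
  have hPdet : P.det ≠ 0 := by
    intro h0
    obtain ⟨v, hv, hv0⟩ := Matrix.exists_mulVec_eq_zero_iff.2 h0
    apply hv
    apply hgen (Finset.univ.map ⟨Sum.inl, Sum.inl_injective⟩) (by simp)
    intro j hj
    obtain ⟨i, _, rfl⟩ := Finset.mem_map.1 hj
    have := congrFun hv0 i
    simp only [Matrix.mulVec, dotProduct, hP, Matrix.of_apply, Pi.zero_apply] at this
    rw [← this]
    exact Finset.sum_congr rfl fun r _ => mul_comm _ _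
  set B := P⁻¹ with hB
  have hPB : P * B = 1 := Matrix.mul_nonsing_inv P (isUnit_iff_ne_zero.2 hPdet)
  have hBP : B * P = 1 := Matrix.nonsing_inv_mul P (isUnit_iff_ne_zero.2 hPdet)
  have hPBe : ∀ i k, ∑ r, B r k * p (Sum.inl i) r = if i = k then 1 else 0 := by
    intro i k
    have := congrFun (congrFun hPB i) k
    rw [Matrix.mul_apply, Matrix.one_apply] at this
    rw [← this]
    exact Finset.sum_congr rfl fun r _ => by rw [hP, Matrix.of_apply, mul_comm]
  have hcard2 : ∀ x y : σ ⊕ Fin 2, x ≠ y →
      ((Finset.univ.erase x).erase y).card = Fintype.card σ := by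
    intro x y hxy
    rw [Finset.card_erase_of_mem (by simp [hxy.symm]), Finset.card_erase_of_mem (by simp),
      Finset.card_univ, Fintype.card_sum, Fintype.card_fin]
    omega
  -- coordinates of the last two points
  set co : Fin 2 → σ → K := fun e k => ∑ r, B r k * p (Sum.inr e) r with hco
  have hexp : ∀ e r, ∑ k, co e k * p (Sum.inl k) r = p (Sum.inr e) r := by
    intro e r
    simp only [hco, Finset.sum_mul]
    rw [Finset.sum_comm]
    have h1 : ∀ y, ∑ x, B y x * p (Sum.inr e) y * p (Sum.inl x) r =
        p (Sum.inr e) y * (B * P) y r := by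
      intro y
      rw [Matrix.mul_apply, Finset.mul_sum]
      exact Finset.sum_congr rfl fun x _ => by rw [hP, Matrix.of_apply]; ring
    simp only [h1, hBP, Matrix.one_apply]
    simp
  have hBcol : ∀ k, (fun r => B r k) ≠ 0 := by
    intro k h
    have := hPBe k k
    simp only [if_true] at this
    have h' : ∀ r, B r k = 0 := fun r => congrFun h r
    simp [h'] at this
  have hco0 : ∀ e k, co e k ≠ 0 := by
    intro e k h
    have hne : (Sum.inl k : σ ⊕ Fin 2) ≠ Sum.inr (1 - e) := by simp
    apply hBcol k
    apply hgen _ (hcard2 _ _ hne)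
    intro j hj
    simp only [Finset.mem_erase, Finset.mem_univ, and_true] at hj
    rcases j with i | e'
    · rw [hPBe, if_neg]
      rintro rfl
      exact hj.2 rfl
    · have : e' = e := by
        have h1 := hj.1
        fin_cases e <;> fin_cases e' <;> simp_all
      subst this
      exact h
  have hcross : ∀ i j, i ≠ j → co 0 i * co 1 j - co 0 j * co 1 i ≠ 0 := by
    intro i j hij h
    have hne : (Sum.inl i : σ ⊕ Fin 2) ≠ Sum.inl j := by simpa using hij
    have hz := hgen _ (hcard2 _ _ hne) (fun r => co 0 j * B r i - co 0 i * B r j) (by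
      intro a ha
      simp only [Finset.mem_erase, Finset.mem_univ, and_true] at ha
      have hsum : ∑ r, (co 0 j * B r i - co 0 i * B r j) * p a r =
          co 0 j * ∑ r, B r i * p a r - co 0 i * ∑ r, B r j * p a r := by
        rw [Finset.mul_sum, Finset.mul_sum, ← Finset.sum_sub_distrib]
        exact Finset.sum_congr rfl fun r _ => by ring
      rw [hsum]
      rcases a with b | e
      · rw [hPBe, hPBe, if_neg, if_neg]
        · simp
        · rintro rfl; exact ha.1 rfl
        · rintro rfl; exact ha.2 rfl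
      · change co 0 j * co e i - co 0 i * co e j = 0
        fin_cases e
        · simp; ring
        · simp only [Fin.mk_one]
          linear_combination -h)
    have h2 : ∑ r, (co 0 j * B r i - co 0 i * B r j) * p (Sum.inl i) r = 0 := by
      have : ∀ r, co 0 j * B r i - co 0 i * B r j = 0 := fun r => congrFun hz r
      simp [this]
    have hsum : ∑ r, (co 0 j * B r i - co 0 i * B r j) * p (Sum.inl i) r =
        co 0 j * ∑ r, B r i * p (Sum.inl i) r - co 0 i * ∑ r, B r j * p (Sum.inl i) r := by
      rw [Finset.mul_sum, Finset.mul_sum, ← Finset.sum_sub_distrib]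
      exact Finset.sum_congr rfl fun r _ => by ring
    rw [hsum, hPBe, hPBe, if_pos rfl, if_neg hij] at h2
    simp only [mul_one, mul_zero, sub_zero] at h2
    exact hco0 0 j h2
  -- choice of the parameter
  obtain ⟨κ, hκ⟩ := Infinite.exists_notMem_finset
    (insert (0 : K) (Finset.univ.image fun i => -(co 1 i / co 0 i)))
  simp only [Finset.mem_insert, Finset.mem_image, Finset.mem_univ, true_and, not_or,
    not_exists] at hκ
  obtain ⟨hκ0, hκ1⟩ := hκ
  have hden : ∀ i, co 1 i + κ * co 0 i ≠ 0 := by
    intro i h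
    apply hκ1 i
    have := hco0 0 i
    field_simp
    linear_combination -h
  set s : σ → K := fun i => co 1 i / (co 1 i + κ * co 0 i) with hs
  have hs0 : ∀ i, (0 : K) ≠ s i := by
    intro i h
    have := div_eq_zero_iff.1 (show co 1 i / (co 1 i + κ * co 0 i) = 0 from h.symm)
    rcases this with h | h
    · exact hco0 1 i h
    · exact hden i h
  have hs1' : ∀ i, 1 - s i = κ * co 0 i / (co 1 i + κ * co 0 i) := by
    intro i
    have := hden i
    rw [hs]; field_simp; ring
  have hs1 : ∀ i, (1 : K) ≠ s i := by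
    intro i h
    have h1 := hs1' i
    rw [← h, sub_self] at h1
    have := div_eq_zero_iff.1 h1.symm
    rcases this with h | h
    · exact mul_ne_zero hκ0 (hco0 0 i) h
    · exact hden i h
  have hsinj : Function.Injective s := by
    intro i j hij
    by_contra hne
    have h1 : co 1 i / (co 1 i + κ * co 0 i) = co 1 j / (co 1 j + κ * co 0 j) := hij
    rw [div_eq_div_iff (hden i) (hden j)] at h1
    have h2 : κ * (co 0 i * co 1 j - co 0 j * co 1 i) = 0 := by linear_combination -h1
    exact mul_ne_zero hκ0 (hcross i j hne) h2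
  set t : σ ⊕ Fin 2 → K := Sum.elim s ![0, 1] with ht
  have htinj : Function.Injective t := by
    rw [ht]
    apply Function.Injective.sumElim hsinj
    · intro i j hij
      fin_cases i <;> fin_cases j <;> simp_all
    · intro i e
      fin_cases e
      · simpa using (hs0 i).symm
      · simpa using (hs1 i).symm
  have hts : (fun i => t (Sum.inl i)) = s := by funext i; simp [ht]
  set Nod := Lagrange.nodal Finset.univ s with hNod
  have hN0 : Nod.eval 0 ≠ 0 := Lagrange.eval_nodal_not_at_node fun i _ => hs0 i
  have hN1 : Nod.eval 1 ≠ 0 := Lagrange.eval_nodal_not_at_node fun i _ => hs1 i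
  have hc0 : ∀ i, (crv s i).eval 0 = Nod.eval 0 * (Lagrange.nodalWeight Finset.univ s i *
      (0 - s i)⁻¹) := fun i =>
    Lagrange.eval_basis_not_at_node (Finset.mem_univ i) (hs0 i)
  have hc1 : ∀ i, (crv s i).eval 1 = Nod.eval 1 * (Lagrange.nodalWeight Finset.univ s i *
      (1 - s i)⁻¹) := fun i =>
    Lagrange.eval_basis_not_at_node (Finset.mem_univ i) (hs1 i)
  have hw : ∀ i, Lagrange.nodalWeight Finset.univ s i ≠ 0 := fun i =>
    Lagrange.nodalWeight_ne_zero hsinj.injOn (Finset.mem_univ i)
  have hc0ne : ∀ i, (crv s i).eval 0 ≠ 0 := by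
    intro i
    rw [hc0]
    exact mul_ne_zero hN0 (mul_ne_zero (hw i) (inv_ne_zero (sub_ne_zero.2 (hs0 i))))
  set u : σ → K := fun i => co 0 i / (crv s i).eval 0 with hu
  have hu0 : ∀ i, u i ≠ 0 := fun i => div_ne_zero (hco0 0 i) (hc0ne i)
  set lam : K := -(Nod.eval 1 / (κ * Nod.eval 0)) with hlam
  have hlam0 : lam ≠ 0 := neg_ne_zero.2 (div_ne_zero hN1 (mul_ne_zero hκ0 hN0))
  have hu1 : ∀ i, u i * (crv s i).eval 1 = lam * co 1 i := by
    intro i
    rw [hu]
    simp only
    rw [hc0, hc1, hs1' i, hlam]
    have e1 : (0 - s i) = -(co 1 i / (co 1 i + κ * co 0 i)) := by rw [hs]; ring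
    rw [e1]
    have := hden i
    have := hco0 0 i
    have := hco0 1 i
    have := hw i
    have hd' : co 1 i + co 0 i * κ ≠ 0 := by rw [mul_comm (co 0 i)]; exact hden i
    field_simp
  refine ⟨t, Matrix.of fun r i => u i * p (Sum.inl i) r,
    Sum.elim u ![1, lam], htinj, ?_, ?_, ?_⟩
  · have h1 : (Matrix.of fun r i => u i * p (Sum.inl i) r : Matrix σ σ K) =
        P.transpose * Matrix.diagonal u := by
      ext r i
      rw [Matrix.mul_diagonal, Matrix.transpose_apply, hP, Matrix.of_apply, Matrix.of_apply,
        mul_comm]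
    rw [h1, Matrix.det_mul, Matrix.det_transpose, Matrix.det_diagonal]
    exact mul_ne_zero hPdet (Finset.prod_ne_zero_iff.2 fun i _ => hu0 i)
  · rintro (i | e)
    · exact hu0 i
    · fin_cases e
      · simp
      · simpa using hlam0
  · rw [hts]
    rintro (i | e)
    · funext r
      simp only [Matrix.mulVec, dotProduct, Matrix.of_apply, pt, ht, Sum.elim_inl,
        Pi.smul_apply, smul_eq_mul]
      rw [Finset.sum_eq_single i]
      · rw [crv_self hsinj, mul_one]
      · intro b _ hb
        rw [crv_ne s hb, mul_zero]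
      · intro h; exact absurd (Finset.mem_univ i) h
    · funext r
      simp only [Matrix.mulVec, dotProduct, Matrix.of_apply, pt, ht, Sum.elim_inr,
        Pi.smul_apply, smul_eq_mul]
      rw [← hexp e r, Finset.mul_sum]
      refine Finset.sum_congr rfl fun i _ => ?_
      fin_cases e
      · have : u i * (crv s i).eval 0 = co 0 i := div_mul_cancel₀ _ (hc0ne i)
        simp only [Fin.zero_eta, Matrix.cons_val_zero, one_mul]
        rw [← this]; ring
      · simp only [Fin.mk_one, Matrix.cons_val_one, Matrix.cons_val_zero]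
        linear_combination p (Sum.inl i) r * hu1 i

end Pool.Agent.V1184.SymPow
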